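import Pool.Agent.H72R3.HJ.Main

/-!
# A Henon-type automorphism of `ℂ⁴` whose filled Julia set contains an entire image of `ℂ²`
which is not dense in the support of the Green current
-/

set_option autoImplicit false

namespace Pool.Agent.Results.MP_2777d9_an.ProductHenon

open Pool.Agent.H72R3.HJ

/-- There are a Henon-type automorphism `P` of `ℂ⁴` with `p = 2` (so `dim I(P) = 1`) and a
non-degenerate holomorphic map `τ : ℂ² → ℂ⁴` with values in the filled Julia set of `P` such that no
closed current `T` of dimension `4` on `ℙ⁴` with `⟨T, ω²⟩ = 1` is supported in the closure of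
`τ(ℂ²)`. -/
theorem result :
    ∃ (P Q : PolyMap 4) (τ : (Fin 2 → ℂ) → Fin 4 → ℂ),
      IsHenonType P Q 2 ∧
      Differentiable ℂ τ ∧
      (∃ ζ, Function.Injective (fderiv ℂ τ ζ)) ∧
      (∀ ζ, τ ζ ∈ filledJulia P) ∧
      ∀ T : FormFun 4 4 → ℝ, IsClosedCurrent T → T (wedge (omega 4) (omega 4)) = 1 →
        ¬ IsSupportedInClosure T (Set.range τ) :=
  ⟨PP, QQ, tau, isHenon, tau_differentiable, ⟨0, tau_nondeg⟩, tau_mem, not_supported⟩

end Pool.Agent.Results.MP_2777d9_an.ProductHenon
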